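import Mathlib

set_option autoImplicit false

/-!
MP_583a9a_co: the graph `K_{k+1,N}` with `N = (k+1)^(k+1)` is `(k,0,p)`-choosable for
`p = k^2 - ⌊k/2⌋ - 1` and not `(k+1)`-choosable.
-/

namespace Pool.Agent.Results.MP_583a9a_co.QuadraticLower

open Finset

/-- `G` is `(k,0,p)`-choosable -/
def PaletteChoosable {V : Type} [Fintype V] (G : SimpleGraph V) (k p : ℕ) : Prop :=
  ∀ L : V → Finset ℕ, (∀ v, k ≤ (L v).card) → (univ.biUnion L).card ≤ p →
    ∃ φ : V → ℕ, (∀ v, φ v ∈ L v) ∧ ∀ u v, G.Adj u v → φ u ≠ φ v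

/-- `G` is `k`-choosable -/
def Choosable {V : Type} (G : SimpleGraph V) (k : ℕ) : Prop :=
  ∀ L : V → Finset ℕ, (∀ v, k ≤ (L v).card) →
    ∃ φ : V → ℕ, (∀ v, φ v ∈ L v) ∧ ∀ u v, G.Adj u v → φ u ≠ φ v

/-- completing a hitting set -/
lemma extend {k : ℕ} (hk : 1 ≤ k) (A : Fin (k + 1) → Finset ℕ) (hA : ∀ i, (A i).card = k)
    (S : Finset (Fin (k + 1))) (T0 : Finset ℕ) (h : ∀ i ∈ S, ∃ c ∈ T0, c ∈ A i)
    (hS : T0.card + 2 ≤ S.card) :
    ∃ T : Finset ℕ, T.card ≤ k - 1 ∧ ∀ i, ∃ c ∈ T, c ∈ A i := by
  classical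
  have hne : ∀ i, ∃ c, c ∈ A i := fun i => by
    have : 0 < (A i).card := by rw [hA]; omega
    exact card_pos.mp this
  choose a ha using hne
  refine ⟨T0 ∪ Sᶜ.image a, ?_, ?_⟩
  · have h1 := card_union_le T0 (Sᶜ.image a)
    have h2 : (Sᶜ.image a).card ≤ Sᶜ.card := card_image_le
    have h3 : Sᶜ.card = k + 1 - S.card := by rw [card_compl, Fintype.card_fin]
    have h4 : S.card ≤ k + 1 := by simpa using card_le_univ S
    omega
  · intro i
    by_cases hi : i ∈ S
    · obtain ⟨c, hc, hc'⟩ := h i hi
      exact ⟨c, mem_union_left _ hc, hc'⟩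
    · exact ⟨a i, mem_union_right _ (mem_image_of_mem _ (mem_compl.mpr hi)), ha i⟩

/-- `k + 1` lists of size `k` with a small union are hit by `k - 1` colours -/
lemma hitting {k : ℕ} (hk : 1 ≤ k) (A : Fin (k + 1) → Finset ℕ) (hA : ∀ i, (A i).card = k)
    (hU : 2 * (univ.biUnion A).card + k < 2 * k * k) :
    ∃ T : Finset ℕ, T.card ≤ k - 1 ∧ ∀ i, ∃ c ∈ T, c ∈ A i := by
  classical
  by_contra hcon
  set U := univ.biUnion A with hUdef
  let I : ℕ → Finset (Fin (k + 1)) := fun c => univ.filter (fun i => c ∈ A i)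
  have hImem : ∀ c i, i ∈ I c ↔ c ∈ A i := fun c i => by simp [I]
  -- no colour is in three lists
  have hI2 : ∀ c, (I c).card ≤ 2 := by
    intro c
    by_contra h
    push Not at h
    exact hcon (extend hk A hA (I c) {c}
      (fun i hi => ⟨c, mem_singleton_self c, (hImem c i).mp hi⟩) (by rw [card_singleton]; omega))
  -- two colours in two lists each share a list
  have hint : ∀ c d, (I c).card = 2 → (I d).card = 2 → (I c ∩ I d).Nonempty := by
    intro c d hc hd
    by_contra h
    rw [not_nonempty_iff_eq_empty] at h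
    have hdisj : Disjoint (I c) (I d) := disjoint_iff_inter_eq_empty.mpr h
    refine hcon (extend hk A hA (I c ∪ I d) {c, d} ?_ ?_)
    · intro i hi
      rcases mem_union.mp hi with hi | hi
      · exact ⟨c, by simp, (hImem c i).mp hi⟩
      · exact ⟨d, by simp, (hImem d i).mp hi⟩
    · rw [card_union_of_disjoint hdisj, hc, hd]
      have : ({c, d} : Finset ℕ).card ≤ 2 := card_le_two
      omega
  -- double counting
  have hsum : ∑ c ∈ U, (I c).card = k * (k + 1) := by
    have h1 : ∑ c ∈ U, (I c).card = ∑ i : Fin (k + 1), (A i).card := by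
      have h2 : ∀ c, (I c).card = ∑ i : Fin (k + 1), if c ∈ A i then 1 else 0 := by
        intro c
        simp only [I]
        rw [card_filter]
      rw [sum_congr rfl (fun c _ => h2 c), sum_comm]
      apply sum_congr rfl
      intro i _
      rw [← card_filter]
      congr 1
      ext c
      simp only [mem_filter, U, mem_biUnion, mem_univ, true_and]
      exact ⟨fun h => h.2, fun h => ⟨⟨i, h⟩, h⟩⟩
    rw [h1, sum_congr rfl (fun i _ => hA i)]
    simp
    ring
  set D := U.filter (fun c => (I c).card = 2) with hD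
  have hUD : k * (k + 1) ≤ U.card + D.card := by
    rw [← hsum]
    have h1 : ∀ c ∈ U, (I c).card ≤ 1 + if (I c).card = 2 then 1 else 0 := by
      intro c _
      have := hI2 c
      split_ifs <;> omega
    calc ∑ c ∈ U, (I c).card ≤ ∑ c ∈ U, (1 + if (I c).card = 2 then 1 else 0) := sum_le_sum h1
      _ = U.card + D.card := by
        rw [sum_add_distrib, ← card_filter, hD]
        simp
  -- the number of colours in two lists
  have hD3 : 2 * D.card ≤ 3 * k := by
    by_cases hstar : ∃ i, ∀ c ∈ D, i ∈ I c
    · obtain ⟨i, hi⟩ := hstar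
      have : D ⊆ A i := fun c hc => (hImem c i).mp (hi c hc)
      have := card_le_card this
      rw [hA] at this
      omega
    · push Not at hstar
      have hDmem : ∀ c ∈ D, (I c).card = 2 := fun c hc => (mem_filter.mp hc).2
      obtain ⟨c0, hc0, -⟩ := hstar 0
      obtain ⟨i, j, hij, hIc0⟩ := card_eq_two.mp (hDmem c0 hc0)
      obtain ⟨c1, hc1, hi1⟩ := hstar j
      obtain ⟨c2, hc2, hi2⟩ := hstar i
      -- c1 is in list i, c2 is in list j
      have h1 : i ∈ I c1 := by
        obtain ⟨x, hx⟩ := hint c0 c1 (hDmem c0 hc0) (hDmem c1 hc1)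
        rw [mem_inter, hIc0, mem_insert, mem_singleton] at hx
        rcases hx.1 with h | h
        · rw [← h]; exact hx.2
        · exact absurd (h ▸ hx.2) hi1
      have h2 : j ∈ I c2 := by
        obtain ⟨x, hx⟩ := hint c0 c2 (hDmem c0 hc0) (hDmem c2 hc2)
        rw [mem_inter, hIc0, mem_insert, mem_singleton] at hx
        rcases hx.1 with h | h
        · exact absurd (h ▸ hx.2) hi2
        · rw [← h]; exact hx.2
      obtain ⟨l, hl⟩ := hint c1 c2 (hDmem c1 hc1) (hDmem c2 hc2)
      rw [mem_inter] at hl
      have hli : l ≠ i := fun h => hi2 (h ▸ hl.2)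
      have hlj : l ≠ j := fun h => hi1 (h ▸ hl.1)
      have hIc1 : I c1 = {i, l} := by
        symm
        apply eq_of_subset_of_card_le
        · intro x hx
          rw [mem_insert, mem_singleton] at hx
          rcases hx with h | h
          · rw [h]; exact h1
          · rw [h]; exact hl.1
        · rw [hDmem c1 hc1, card_pair hli.symm]
      have hIc2 : I c2 = {j, l} := by
        symm
        apply eq_of_subset_of_card_le
        · intro x hx
          rw [mem_insert, mem_singleton] at hx
          rcases hx with h | h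
          · rw [h]; exact h2
          · rw [h]; exact hl.2
        · rw [hDmem c2 hc2, card_pair hlj.symm]
      -- every colour of D is in two of the lists i, j, l
      have hthree : ∀ c ∈ D, 2 ≤ (if c ∈ A i then 1 else 0) + (if c ∈ A j then 1 else 0) +
          (if c ∈ A l then 1 else 0) := by
        intro c hc
        obtain ⟨x, hx⟩ := hint c c0 (hDmem c hc) (hDmem c0 hc0)
        obtain ⟨y, hy⟩ := hint c c1 (hDmem c hc) (hDmem c1 hc1)
        obtain ⟨z, hz⟩ := hint c c2 (hDmem c hc) (hDmem c2 hc2)
        rw [mem_inter, hIc0, mem_insert, mem_singleton] at hx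
        rw [mem_inter, hIc1, mem_insert, mem_singleton] at hy
        rw [mem_inter, hIc2, mem_insert, mem_singleton] at hz
        have hx' : c ∈ A i ∨ c ∈ A j := by
          rcases hx.2 with h | h
          · left; rw [← hImem, ← h]; exact hx.1
          · right; rw [← hImem, ← h]; exact hx.1
        have hy' : c ∈ A i ∨ c ∈ A l := by
          rcases hy.2 with h | h
          · left; rw [← hImem, ← h]; exact hy.1
          · right; rw [← hImem, ← h]; exact hy.1
        have hz' : c ∈ A j ∨ c ∈ A l := by
          rcases hz.2 with h | h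
          · left; rw [← hImem, ← h]; exact hz.1
          · right; rw [← hImem, ← h]; exact hz.1
        by_cases e1 : c ∈ A i <;> by_cases e2 : c ∈ A j <;> by_cases e3 : c ∈ A l <;>
          simp_all
      have hle : ∀ m : Fin (k + 1), ∑ c ∈ D, (if c ∈ A m then 1 else 0) ≤ k := by
        intro m
        rw [← card_filter, ← hA m]
        apply card_le_card
        intro c hc
        exact (mem_filter.mp hc).2
      have := sum_le_sum hthree
      rw [sum_add_distrib, sum_add_distrib, sum_const, smul_eq_mul] at this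
      have e1 := hle i
      have e2 := hle j
      have e3 := hle l
      omega
  nlinarith

/-- `K_{k+1,N}` with `N = (k+1)^(k+1)` -/
abbrev KG (k : ℕ) : SimpleGraph (Fin (k + 1) ⊕ (Fin (k + 1) → Fin (k + 1))) :=
  completeBipartiteGraph (Fin (k + 1)) (Fin (k + 1) → Fin (k + 1))

lemma KG_palette {k p : ℕ} (hk : 1 ≤ k) (hp : 2 * p + k < 2 * k * k) :
    PaletteChoosable (KG k) k p := by
  classical
  intro L hL hpal
  have hsub : ∀ i : Fin (k + 1), ∃ B ⊆ L (Sum.inl i), B.card = k := fun i =>
    exists_subset_card_eq (hL (Sum.inl i))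
  choose A hAs hAc using hsub
  have hU : (univ.biUnion A).card ≤ p := by
    refine le_trans (card_le_card ?_) hpal
    intro c hc
    rw [mem_biUnion] at hc ⊢
    obtain ⟨i, -, hi⟩ := hc
    exact ⟨Sum.inl i, mem_univ _, hAs i hi⟩
  obtain ⟨T, hT, hhit⟩ := hitting hk A hAc (by omega)
  choose f hfT hfA using hhit
  have hright : ∀ w : Fin (k + 1) → Fin (k + 1), ∃ c ∈ L (Sum.inr w), c ∉ T := by
    intro w
    by_contra h
    push Not at h
    have := card_le_card (show L (Sum.inr w) ⊆ T from h)
    have := hL (Sum.inr w)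
    omega
  choose g hgL hgT using hright
  refine ⟨Sum.elim f g, ?_, ?_⟩
  · rintro (i | w)
    · exact hAs i (hfA i)
    · exact hgL w
  · rintro (i | w) (j | v) h
    · simp at h
    · intro he
      apply hgT v
      simp only [Sum.elim_inl, Sum.elim_inr] at he
      rw [← he]; exact hfT i
    · intro he
      apply hgT w
      simp only [Sum.elim_inl, Sum.elim_inr] at he
      rw [he]; exact hfT j
    · simp at h

lemma KG_not_choosable (k : ℕ) : ¬ Choosable (KG k) (k + 1) := by
  classical
  intro hch
  let col : Fin (k + 1) → Fin (k + 1) → ℕ := fun i j => (i : ℕ) * (k + 1) + j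
  have hcol : ∀ i j i' j', col i j = col i' j' → i = i' ∧ j = j' := by
    intro i j i' j' h
    have hj := j.isLt
    have hj' := j'.isLt
    have hd : (i : ℕ) = i' := by
      have e1 : col i j / (k + 1) = i := by
        simp only [col]
        rw [mul_comm, Nat.mul_add_div (by omega), Nat.div_eq_of_lt hj]; simp
      have e2 : col i' j' / (k + 1) = i' := by
        simp only [col]
        rw [mul_comm, Nat.mul_add_div (by omega), Nat.div_eq_of_lt hj']; simp
      rw [← e1, ← e2, h]
    refine ⟨Fin.ext hd, Fin.ext ?_⟩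
    simp only [col] at h
    rw [hd] at h
    omega
  obtain ⟨φ, hφ, hprop⟩ := hch (Sum.elim (fun i => univ.image (col i))
      (fun w => univ.image (fun i => col i (w i)))) (by
    rintro (i | w)
    · simp only [Sum.elim_inl]
      rw [card_image_of_injective _ (fun a b h => (hcol _ _ _ _ h).2)]
      simp
    · simp only [Sum.elim_inr]
      rw [card_image_of_injective _ (fun a b h => (hcol _ _ _ _ h).1)]
      simp)
  have hw : ∀ i : Fin (k + 1), ∃ j, col i j = φ (Sum.inl i) := by
    intro i
    have := hφ (Sum.inl i)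
    simpa using this
  choose w hw using hw
  have := hφ (Sum.inr w)
  simp only [Sum.elim_inr, mem_image, mem_univ, true_and] at this
  obtain ⟨i, hi⟩ := this
  exact hprop (Sum.inl i) (Sum.inr w) (by simp) (by rw [← hi, hw i])

/-- For every `k ≥ 1` and every `p` with `p < k^2 - k/2` some finite graph is
`(k,0,p)`-choosable and not `(k+1)`-choosable. -/
theorem result (k p : ℕ) (hk : 1 ≤ k) (hp : (p : ℝ) < (k : ℝ) ^ 2 - (k : ℝ) / 2) :
    ∃ (V : Type) (_ : Fintype V) (G : SimpleGraph V),
      PaletteChoosable G k p ∧ ¬ Choosable G (k + 1) := by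
  refine ⟨_, inferInstance, KG k, KG_palette hk ?_, KG_not_choosable k⟩
  have h1 : 2 * (p : ℝ) + k < 2 * k * k := by nlinarith
  exact_mod_cast h1

end Pool.Agent.Results.MP_583a9a_co.QuadraticLower
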